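import Pool.Agent.Helper26.TK.Stmts

/-! Packet M: the measure lemma on the Cantor space. -/

namespace Pool.Agent.Helper68.TK

open Set Filter Topology MeasureTheory Pool.Agent.Helper26.TK

/-- sets depending on finitely many coordinates are clopen -/
lemma isClopen_of_prefix (n : ℕ) (Z : Set (ℕ → Bool))
    (h : ∀ z z' : ℕ → Bool, (∀ j < n, z j = z' j) → z ∈ Z → z' ∈ Z) : IsClopen Z := by
  let ρ : (ℕ → Bool) → (Fin n → Bool) := fun z j => z j
  have hρ : Continuous ρ := continuous_pi fun j => continuous_apply (j : ℕ)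
  have hZ : Z = ρ ⁻¹' (ρ '' Z) := by
    ext z
    constructor
    · exact fun hz => ⟨z, hz, rfl⟩
    · rintro ⟨z', hz', he⟩
      exact h z' z (fun j hj => congrFun he ⟨j, hj⟩) hz'
  rw [hZ]
  exact (isClopen_discrete _).preimage hρ

/-- the normalised mass distribution as a probability measure -/
noncomputable def pm (s : Finset Node) (w : Node → ℝ) : Measure (ℕ → Bool) :=
  ∑ t ∈ s, ENNReal.ofReal (w t) • Measure.dirac (ext t)

lemma pm_apply (s : Finset Node) (w : Node → ℝ) (Z : Set (ℕ → Bool)) (hZ : MeasurableSet Z) :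
    pm s w Z = ∑ t ∈ s, ENNReal.ofReal (w t) * Z.indicator 1 (ext t) := by
  rw [pm, Measure.finsetSum_apply]
  refine Finset.sum_congr rfl fun t _ => ?_
  rw [Measure.smul_apply, Measure.dirac_apply' _ hZ, smul_eq_mul]

open Classical in
lemma pm_apply' (s : Finset Node) (w : Node → ℝ) (hw : ∀ t, 0 ≤ w t) (Z : Set (ℕ → Bool))
    (hZ : MeasurableSet Z) :
    pm s w Z = ENNReal.ofReal (∑ t ∈ s.filter (fun t => ext t ∈ Z), w t) := by
  rw [pm_apply s w Z hZ, ENNReal.ofReal_sum_of_nonneg (fun t _ => hw t), Finset.sum_filter]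
  refine Finset.sum_congr rfl fun t _ => ?_
  by_cases h : ext t ∈ Z
  · simp [h]
  · simp [h]

theorem stmtM : StmtM := by
  classical
  intro f hf hK w s ε hε hw _ hlow hup
  -- normalise
  set W : ℕ → ℝ := fun m => ∑ t ∈ s m, w m t with hW
  have hWpos : ∀ m, 0 < W m := fun m => lt_of_lt_of_le hε (hlow m)
  have hprob : ∀ m, IsProbabilityMeasure (pm (s m) (fun t => w m t / W m)) := by
    intro m
    constructor
    rw [pm_apply' (s m) _ (fun t => div_nonneg (hw m t) (hWpos m).le) univ MeasurableSet.univ]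
    rw [Finset.sum_filter]
    simp only [mem_univ, if_true]
    rw [← Finset.sum_div]
    show ENNReal.ofReal (W m / W m) = 1
    rw [div_self (hWpos m).ne', ENNReal.ofReal_one]
  set P : ℕ → ProbabilityMeasure (ℕ → Bool) := fun m => ⟨_, hprob m⟩ with hP
  obtain ⟨Q, hQ⟩ : ∃ Q : ProbabilityMeasure (ℕ → Bool),
      Tendsto P (hyperfilter ℕ : Filter ℕ) (𝓝 Q) := by
    have := isCompact_univ (X := ProbabilityMeasure (ℕ → Bool))
    obtain ⟨Q, _, hQ⟩ := this.ultrafilter_le_nhds ((hyperfilter ℕ).map P) (by simp)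
    exact ⟨Q, hQ⟩
  set μ : Measure (ℕ → Bool) := (Q : Measure (ℕ → Bool)) with hμ
  -- mass of clopen sets
  have key : ∀ (Z : Set (ℕ → Bool)), IsClopen Z → ∀ c : ENNReal, c < μ Z → ∀ M : ℕ,
      ∃ m ≥ M, c.toReal * ε ≤ ∑ t ∈ (s m).filter (fun t => ext t ∈ Z), w m t := by
    intro Z hZ c hc M
    have h1 := ProbabilityMeasure.tendsto_measure_of_null_frontier_of_tendsto' hQ
      (E := Z) (by simp [hZ.frontier_eq])
    have h2 : ∀ᶠ m in (hyperfilter ℕ : Filter ℕ), c < (P m : Measure (ℕ → Bool)) Z :=
      h1.eventually (lt_mem_nhds hc)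
    have h3 : ∀ᶠ m in (hyperfilter ℕ : Filter ℕ), M ≤ m := by
      have : (hyperfilter ℕ : Filter ℕ) ≤ atTop := by
        rw [← Nat.cofinite_eq_atTop]; exact hyperfilter_le_cofinite
      exact this (eventually_ge_atTop M)
    obtain ⟨m, hm1, hm2⟩ := (h2.and h3).exists
    refine ⟨m, hm2, ?_⟩
    have h4 : (P m : Measure (ℕ → Bool)) Z =
        ENNReal.ofReal (∑ t ∈ (s m).filter (fun t => ext t ∈ Z), w m t / W m) := by
      convert pm_apply' (s m) (fun t => w m t / W m)
        (fun t => div_nonneg (hw m t) (hWpos m).le) Z hZ.1.measurableSet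
      rfl
    rw [h4] at hm1
    have h5 : c.toReal ≤ ∑ t ∈ (s m).filter (fun t => ext t ∈ Z), w m t / W m := by
      refine ENNReal.toReal_le_of_le_ofReal ?_ hm1.le
      exact Finset.sum_nonneg fun t _ => div_nonneg (hw m t) (hWpos m).le
    rw [← Finset.sum_div, le_div_iff₀ (hWpos m)] at h5
    calc c.toReal * ε ≤ c.toReal * W m := by
          gcongr
          exact hlow m
      _ ≤ _ := h5
  by_cases hr : μ (range f) = 0
  · -- an atom outside the range
    have hE : MeasurableSet (toMeasurable μ (range f))ᶜ :=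
      (measurableSet_toMeasurable μ (range f)).compl
    have hE1 : 0 < μ (toMeasurable μ (range f))ᶜ := by
      rw [prob_compl_eq_one_sub (measurableSet_toMeasurable μ (range f)),
        measure_toMeasurable, hr]
      simp
    obtain ⟨K, hKsub, hKc, hKpos⟩ := hE.exists_lt_isCompact hE1
    have hKr : K ⊆ (range f)ᶜ := hKsub.trans (compl_subset_compl.2 (subset_toMeasurable μ _))
    have hcount := hK K hKc.isClosed hKr
    obtain ⟨x, hxK, hx⟩ : ∃ x ∈ K, μ {x} ≠ 0 := by
      by_contra hcon
      push Not at hcon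
      have : μ (⋃ x ∈ K, {x}) = 0 := (measure_biUnion_null_iff hcount).2 hcon
      rw [biUnion_of_singleton] at this
      rw [this] at hKpos
      exact lt_irrefl _ hKpos
    have hfin : μ {x} ≠ ⊤ := measure_ne_top _ _
    refine ⟨(μ {x} / 2).toReal * ε, ?_, Or.inr ⟨x, hKr hxK, ?_⟩⟩
    · refine mul_pos (ENNReal.toReal_pos ?_ ?_) hε
      · simp [hx]
      · exact ENNReal.div_ne_top hfin (by simp)
    · intro j M
      have hcl : IsClopen {z : ℕ → Bool | ∀ i < j, z i = x i} :=
        isClopen_of_prefix j _ fun z z' hzz hz i hi => by rw [← hzz i hi]; exact hz i hi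
      obtain ⟨m, hm, h⟩ := key _ hcl (μ {x} / 2) (by
        refine lt_of_lt_of_le (ENNReal.half_lt_self hx hfin) (measure_mono ?_)
        rintro z rfl i _
        rfl) M
      refine ⟨m, hm, ?_⟩
      convert h
      exact Iff.rfl
  · -- a compact part of the range
    set r : ENNReal := μ (range f) / 2 with hrdef
    have hfin : μ (range f) ≠ ⊤ := measure_ne_top _ _
    have hrlt : r < μ (range f) := ENNReal.half_lt_self hr hfin
    let A : (ℕ → ℕ) → ℕ → Set (ℕ → Bool) := fun g k => f '' {y | ∀ j < k, y j ≤ g j}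
    have hstep : ∀ (k : ℕ) (g : ℕ → ℕ), r < μ (A g k) →
        ∃ n, r < μ (A (Function.update g k n) (k + 1)) := by
      intro k g hg
      have hU : A g k = ⋃ n, A (Function.update g k n) (k + 1) := by
        ext z
        constructor
        · rintro ⟨y, hy, rfl⟩
          refine mem_iUnion.2 ⟨y k, y, fun j hj => ?_, rfl⟩
          rcases Nat.lt_succ_iff_lt_or_eq.1 hj with h | h
          · rw [Function.update_of_ne h.ne]; exact hy j h
          · rw [h, Function.update_self]
        · intro hz
          obtain ⟨n, y, hy, rfl⟩ := mem_iUnion.1 hz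
          refine ⟨y, fun j hj => ?_, rfl⟩
          have := hy j (hj.trans (Nat.lt_succ_self k))
          rwa [Function.update_of_ne hj.ne] at this
      have hmono : Monotone fun n => A (Function.update g k n) (k + 1) := by
        intro a b hab
        refine image_mono fun y hy j hj => ?_
        have h := hy j hj
        rcases Nat.lt_succ_iff_lt_or_eq.1 hj with h' | h'
        · rw [Function.update_of_ne h'.ne] at h ⊢; exact h
        · rw [h', Function.update_self] at h ⊢; exact h.trans hab
      rw [hU, hmono.measure_iUnion] at hg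
      exact lt_iSup_iff.1 hg
    choose! N hN using hstep
    let G : ℕ → (ℕ → ℕ) := fun k => Nat.rec (fun _ => 0) (fun k g => Function.update g k (N k g)) k
    have hG0 : G 0 = fun _ => 0 := rfl
    have hGs : ∀ k, G (k + 1) = Function.update (G k) k (N k (G k)) := fun k => rfl
    have hGr : ∀ k, r < μ (A (G k) k) := by
      intro k
      induction k with
      | zero =>
        have : A (G 0) 0 = range f := by
          show f '' {y | ∀ j < 0, y j ≤ G 0 j} = range f
          have : {y : ℕ → ℕ | ∀ j < 0, y j ≤ G 0 j} = univ := by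
            ext y; simp
          rw [this, image_univ]
        rw [this]; exact hrlt
      | succ k ih => rw [hGs]; exact hN k (G k) ih
    set g : ℕ → ℕ := fun k => G (k + 1) k with hg
    have hGg : ∀ k j, j < k → G k j = g j := by
      intro k
      induction k with
      | zero => intro j hj; omega
      | succ k ih =>
        intro j hj
        rcases Nat.lt_succ_iff_lt_or_eq.1 hj with h | h
        · rw [hGs, Function.update_of_ne h.ne]; exact ih j h
        · rw [h]
    have hAg : ∀ k, r < μ (A g k) := by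
      intro k
      have : A g k = A (G k) k := by
        show f '' _ = f '' _
        congr 1
        ext y
        constructor
        · intro hy j hj; rw [hGg k j hj]; exact hy j hj
        · intro hy j hj; rw [← hGg k j hj]; exact hy j hj
      rw [this]; exact hGr k
    refine ⟨r.toReal * ε, ?_, Or.inl ⟨g, fun i M => ?_⟩⟩
    · refine mul_pos (ENNReal.toReal_pos ?_ ?_) hε
      · simp [hrdef, hr]
      · exact ENNReal.div_ne_top hfin (by simp)
    · have hcl : IsClopen {z : ℕ → Bool | ∃ y : ℕ → ℕ, (∀ j ≤ i, y j ≤ g j) ∧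
          ∀ j ≤ i, f y j = z j} :=
        isClopen_of_prefix (i + 1) _ fun z z' hzz ⟨y, hy1, hy2⟩ =>
          ⟨y, hy1, fun j hj => by rw [← hzz j (Nat.lt_succ_of_le hj)]; exact hy2 j hj⟩
      obtain ⟨m, hm, h⟩ := key _ hcl r (by
        refine lt_of_lt_of_le (hAg (i + 1)) (measure_mono ?_)
        rintro _ ⟨y, hy, rfl⟩
        exact ⟨y, fun j hj => hy j (Nat.lt_succ_of_le hj), fun j _ => rfl⟩) M
      refine ⟨m, hm, ?_⟩
      convert h
      exact Iff.rfl

end Pool.Agent.Helper68.TK
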